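import Pool.Agent.Helper73.LOMin.Defs

/-!
A universal action of a countable left-orderable group (module UNIV for MP_70d4a1_al).
-/

namespace PoolLOMin

namespace Univ

/-- the lexicographic sum of countably many left orders, each point replaced by the rationals -/
@[ext]
structure Om (G : Type) [Group G] (Q : ℕ → Set G) (hQ : ∀ k, IsCone (Q k)) where
  /-- the summand -/
  k : ℕ
  /-- the group element -/
  g : G
  /-- the rational coordinate -/
  q : ℚ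

variable {G : Type} [Group G] {Q : ℕ → Set G} {hQ : ∀ k, IsCone (Q k)}

/-- the strict order -/
def ltO (a b : Om G Q hQ) : Prop :=
  a.k < b.k ∨ (a.k = b.k ∧ (a.g⁻¹ * b.g ∈ Q a.k ∨ (a.g = b.g ∧ a.q < b.q)))

lemma ltO_irrefl (a : Om G Q hQ) : ¬ ltO a a := by
  rintro (h | ⟨-, h | ⟨-, h⟩⟩)
  · exact lt_irrefl _ h
  · rw [inv_mul_cancel] at h
    exact (hQ a.k).2.1 h
  · exact lt_irrefl _ h

lemma ltO_trans {a b c : Om G Q hQ} (h : ltO a b) (h' : ltO b c) : ltO a c := by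
  obtain ⟨k, g, q⟩ := a
  obtain ⟨k', g', q'⟩ := b
  obtain ⟨k'', g'', q''⟩ := c
  simp only [ltO] at h h' ⊢
  rcases h with h | ⟨h1, h⟩
  · rcases h' with h' | ⟨h1', -⟩
    · exact Or.inl (h.trans h')
    · exact Or.inl (h1' ▸ h)
  · subst h1
    rcases h' with h' | ⟨h1', h'⟩
    · exact Or.inl h'
    · subst h1'
      refine Or.inr ⟨rfl, ?_⟩
      rcases h with h | ⟨rfl, h⟩
      · rcases h' with h' | ⟨rfl, h'⟩
        · left
          have := (hQ k).1 _ h _ h'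
          rwa [← mul_assoc, mul_assoc g⁻¹, mul_inv_cancel, mul_one] at this
        · exact Or.inl h
      · rcases h' with h' | ⟨rfl, h'⟩
        · exact Or.inl h'
        · exact Or.inr ⟨rfl, h.trans h'⟩

lemma ltO_tri (a b : Om G Q hQ) : ltO a b ∨ a = b ∨ ltO b a := by
  obtain ⟨k, g, q⟩ := a
  obtain ⟨k', g', q'⟩ := b
  simp only [ltO, Om.mk.injEq]
  rcases lt_trichotomy k k' with h | rfl | h
  · exact Or.inl (Or.inl h)
  · by_cases hg : g = g'
    · subst hg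
      rcases lt_trichotomy q q' with h | rfl | h
      · exact Or.inl (Or.inr ⟨rfl, Or.inr ⟨rfl, h⟩⟩)
      · exact Or.inr (Or.inl ⟨rfl, rfl, rfl⟩)
      · exact Or.inr (Or.inr (Or.inr ⟨rfl, Or.inr ⟨rfl, h⟩⟩))
    · have h1 : g⁻¹ * g' ≠ 1 := fun h => hg (inv_mul_eq_one.mp h)
      rcases (hQ k).2.2.1 _ h1 with h | h
      · exact Or.inl (Or.inr ⟨rfl, Or.inl h⟩)
      · refine Or.inr (Or.inr (Or.inr ⟨rfl, Or.inl ?_⟩))
        rwa [mul_inv_rev, inv_inv] at h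
  · exact Or.inr (Or.inr (Or.inl h))

instance : IsStrictTotalOrder (Om G Q hQ) ltO where
  irrefl := ltO_irrefl
  trans _ _ _ := ltO_trans
  trichotomous a b h1 h2 := by
    rcases ltO_tri a b with h | h | h
    · exact absurd h h1
    · exact h
    · exact absurd h h2

open Classical in
noncomputable instance : LinearOrder (Om G Q hQ) := linearOrderOfSTO ltO

lemma lt_iff (a b : Om G Q hQ) : a < b ↔
    a.k < b.k ∨ (a.k = b.k ∧ (a.g⁻¹ * b.g ∈ Q a.k ∨ (a.g = b.g ∧ a.q < b.q))) := Iff.rfl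

instance : Nonempty (Om G Q hQ) := ⟨⟨0, 1, 0⟩⟩

instance [Countable G] : Countable (Om G Q hQ) := by
  have h : Function.Injective (fun a : Om G Q hQ => (a.k, a.g, a.q)) := by
    intro a b h
    simp only [Prod.mk.injEq] at h
    exact Om.ext h.1 h.2.1 h.2.2
  exact h.countable

instance : NoMaxOrder (Om G Q hQ) where
  exists_gt a := ⟨⟨a.k, a.g, a.q + 1⟩, Or.inr ⟨rfl, Or.inr ⟨rfl, by simp⟩⟩⟩

instance : NoMinOrder (Om G Q hQ) where
  exists_lt a := ⟨⟨a.k, a.g, a.q - 1⟩, Or.inr ⟨rfl, Or.inr ⟨rfl, by simp⟩⟩⟩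

instance : DenselyOrdered (Om G Q hQ) where
  dense a b h := by
    by_cases hab : a.k = b.k ∧ a.g = b.g
    · obtain ⟨h1, h2⟩ := hab
      have h3 : a.q < b.q := by
        rcases h with h | ⟨-, h | ⟨-, h⟩⟩
        · exact absurd h1 h.ne
        · rw [h2, inv_mul_cancel] at h
          exact absurd h (hQ a.k).2.1
        · exact h
      obtain ⟨q, hq, hq'⟩ := exists_between h3
      exact ⟨⟨a.k, a.g, q⟩, Or.inr ⟨rfl, Or.inr ⟨rfl, hq⟩⟩, Or.inr ⟨h1, Or.inr ⟨h2, hq'⟩⟩⟩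
    · refine ⟨⟨a.k, a.g, a.q + 1⟩, Or.inr ⟨rfl, Or.inr ⟨rfl, by simp⟩⟩, ?_⟩
      rcases h with h | ⟨h1, h | ⟨h2, h⟩⟩
      · exact Or.inl h
      · exact Or.inr ⟨h1, Or.inl h⟩
      · exact absurd ⟨h1, h2⟩ hab

/-- the action on the lexicographic sum -/
noncomputable def act (f : G) : Om G Q hQ ≃o Om G Q hQ :=
  StrictMono.orderIsoOfRightInverse (fun a => ⟨a.k, f * a.g, a.q⟩)
    (by
      intro a b h
      rw [lt_iff] at h ⊢
      simp only [mul_inv_rev, mul_assoc, inv_mul_cancel_left, mul_right_inj] at h ⊢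
      exact h)
    (fun a => ⟨a.k, f⁻¹ * a.g, a.q⟩)
    (by
      intro a
      simp)

lemma act_apply (f : G) (a : Om G Q hQ) : act f a = ⟨a.k, f * a.g, a.q⟩ := rfl

/-- periodic extension of a map of the open unit interval -/
noncomputable def ext (β : Set.Ioo (0 : ℚ) 1 ≃o Set.Ioo (0 : ℚ) 1) (x : ℚ) : ℚ :=
  if h : 0 < Int.fract x then ⌊x⌋ + (β ⟨Int.fract x, h, Int.fract_lt_one x⟩ : ℚ) else x

lemma ext_pos (β : Set.Ioo (0 : ℚ) 1 ≃o Set.Ioo (0 : ℚ) 1) (x : ℚ) (h : 0 < Int.fract x) :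
    ext β x = ⌊x⌋ + (β ⟨Int.fract x, h, Int.fract_lt_one x⟩ : ℚ) := dif_pos h

lemma ext_neg (β : Set.Ioo (0 : ℚ) 1 ≃o Set.Ioo (0 : ℚ) 1) (x : ℚ) (h : ¬ 0 < Int.fract x) :
    ext β x = x := dif_neg h

lemma floor_ext (β : Set.Ioo (0 : ℚ) 1 ≃o Set.Ioo (0 : ℚ) 1) (x : ℚ) : ⌊ext β x⌋ = ⌊x⌋ := by
  by_cases h : 0 < Int.fract x
  · rw [ext_pos β x h, Int.floor_eq_iff]
    have := (β ⟨Int.fract x, h, Int.fract_lt_one x⟩).2
    constructor
    · linarith [this.1]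
    · linarith [this.2]
  · rw [ext_neg β x h]

lemma fract_ext (β : Set.Ioo (0 : ℚ) 1 ≃o Set.Ioo (0 : ℚ) 1) (x : ℚ) (h : 0 < Int.fract x) :
    Int.fract (ext β x) = (β ⟨Int.fract x, h, Int.fract_lt_one x⟩ : ℚ) := by
  rw [← Int.self_sub_floor, floor_ext, ext_pos β x h]
  ring

lemma ext_ext (β γ : Set.Ioo (0 : ℚ) 1 ≃o Set.Ioo (0 : ℚ) 1) (x : ℚ) :
    ext β (ext γ x) = ext (β * γ) x := by
  by_cases h : 0 < Int.fract x
  · have h1 := fract_ext γ x h
    have h2 : 0 < Int.fract (ext γ x) := by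
      rw [h1]
      exact (γ ⟨Int.fract x, h, Int.fract_lt_one x⟩).2.1
    rw [ext_pos β _ h2, floor_ext, ext_pos (β * γ) x h]
    congr 2
    show β _ = β (γ _)
    congr 1
    exact Subtype.ext h1
  · rw [ext_neg γ x h, ext_neg β x h, ext_neg _ x h]

lemma ext_one (x : ℚ) : ext 1 x = x := by
  by_cases h : 0 < Int.fract x
  · rw [ext_pos 1 x h]
    show (⌊x⌋ : ℚ) + Int.fract x = x
    exact Int.floor_add_fract x
  · rw [ext_neg 1 x h]

lemma ext_mono (β : Set.Ioo (0 : ℚ) 1 ≃o Set.Ioo (0 : ℚ) 1) : StrictMono (ext β) := by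
  intro x y hxy
  have hle : ⌊x⌋ ≤ ⌊y⌋ := Int.floor_le_floor hxy.le
  rcases hle.lt_or_eq with h | h
  · have h1 : ext β x < ⌊x⌋ + 1 := by
      have := Int.lt_floor_add_one (ext β x)
      rwa [floor_ext] at this
    have h2 : (⌊y⌋ : ℚ) ≤ ext β y := by
      have := Int.floor_le (ext β y)
      rwa [floor_ext] at this
    have h3 : (⌊x⌋ : ℚ) + 1 ≤ ⌊y⌋ := by exact_mod_cast h
    linarith
  · have hf : Int.fract x < Int.fract y := by
      rw [← Int.self_sub_floor, ← Int.self_sub_floor, h]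
      linarith
    have hy : 0 < Int.fract y := lt_of_le_of_lt (Int.fract_nonneg x) hf
    by_cases hx : 0 < Int.fract x
    · rw [ext_pos β x hx, ext_pos β y hy, h]
      have h1 : β ⟨Int.fract x, hx, Int.fract_lt_one x⟩ < β ⟨Int.fract y, hy, Int.fract_lt_one y⟩ :=
        β.strictMono hf
      have h2 : (β ⟨Int.fract x, hx, Int.fract_lt_one x⟩ : ℚ) <
        (β ⟨Int.fract y, hy, Int.fract_lt_one y⟩ : ℚ) := h1
      linarith
    · have hx0 : Int.fract x = 0 := le_antisymm (not_lt.mp hx) (Int.fract_nonneg x)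
      rw [ext_neg β x hx, ext_pos β y hy, ← h]
      have h1 := (β ⟨Int.fract y, hy, Int.fract_lt_one y⟩).2.1
      have h2 : x = ⌊x⌋ := by
        have := Int.floor_add_fract x
        rw [hx0, add_zero] at this
        exact this.symm
      linarith

/-- periodic extension, as an order automorphism -/
noncomputable def extIso (β : Set.Ioo (0 : ℚ) 1 ≃o Set.Ioo (0 : ℚ) 1) : AutQ :=
  StrictMono.orderIsoOfRightInverse (ext β) (ext_mono β) (ext β⁻¹)
    (by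
      intro x
      rw [ext_ext, mul_inv_cancel, ext_one])

lemma extIso_apply (β : Set.Ioo (0 : ℚ) 1 ≃o Set.Ioo (0 : ℚ) 1) (x : ℚ) :
    extIso β x = ext β x := rfl

lemma extIso_per (β : Set.Ioo (0 : ℚ) 1 ≃o Set.Ioo (0 : ℚ) 1) : Per (extIso β) := by
  intro x
  rw [extIso_apply, extIso_apply]
  by_cases h : 0 < Int.fract x
  · have h' : 0 < Int.fract (x + 1) := by rwa [Int.fract_add_one]
    rw [ext_pos β x h, ext_pos β _ h', Int.floor_add_one]
    have h1 : (⟨Int.fract (x + 1), h', Int.fract_lt_one (x + 1)⟩ : Set.Ioo (0 : ℚ) 1) =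
        ⟨Int.fract x, h, Int.fract_lt_one x⟩ := Subtype.ext (Int.fract_add_one x)
    rw [h1]
    push_cast
    ring
  · have h' : ¬ 0 < Int.fract (x + 1) := by rwa [Int.fract_add_one]
    rw [ext_neg β x h, ext_neg β _ h']

lemma ext_unit (β : Set.Ioo (0 : ℚ) 1 ≃o Set.Ioo (0 : ℚ) 1) (x : Set.Ioo (0 : ℚ) 1) :
    ext β x = β x := by
  have h1 : Int.fract (x : ℚ) = x := Int.fract_eq_self.mpr ⟨x.2.1.le, x.2.2⟩
  have h2 : ⌊(x : ℚ)⌋ = 0 := Int.floor_eq_zero_iff.mpr ⟨x.2.1.le, x.2.2⟩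
  have h3 : 0 < Int.fract (x : ℚ) := by rw [h1]; exact x.2.1
  rw [ext_pos β _ h3, h2, Int.cast_zero, zero_add]
  congr 2
  exact Subtype.ext h1

/-- a sequence of cones approximating all cones -/
lemma exists_seq (G : Type) [Group G] [Countable G] (P₀ : Set G) (hP₀ : IsCone P₀) :
    ∃ Q : ℕ → Set G, (∀ k, IsCone (Q k)) ∧ Q 0 = P₀ ∧
      ∀ Q' : Set G, IsCone Q' → ∀ F : Finset G, ∃ k, ∀ f ∈ F, (f ∈ Q k ↔ f ∈ Q') := by
  classical
  obtain ⟨s, hs⟩ := exists_surjective_nat (Finset G × Finset G)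
  let R : ℕ → Set G := fun n =>
    if h : ∃ Q : Set G, IsCone Q ∧ ∀ f ∈ (s n).1, (f ∈ Q ↔ f ∈ (s n).2) then h.choose else P₀
  have hR : ∀ n, IsCone (R n) := by
    intro n
    by_cases h : ∃ Q : Set G, IsCone Q ∧ ∀ f ∈ (s n).1, (f ∈ Q ↔ f ∈ (s n).2)
    · have : R n = h.choose := dif_pos h
      rw [this]
      exact h.choose_spec.1
    · have : R n = P₀ := dif_neg h
      rw [this]
      exact hP₀
  refine ⟨fun n => Nat.casesOn n P₀ R, ?_, rfl, ?_⟩
  · intro k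
    cases k with
    | zero => exact hP₀
    | succ n => exact hR n
  · intro Q' hQ' F
    obtain ⟨n, hn⟩ := hs (F, F.filter (· ∈ Q'))
    have h : ∃ Q : Set G, IsCone Q ∧ ∀ f ∈ (s n).1, (f ∈ Q ↔ f ∈ (s n).2) := by
      refine ⟨Q', hQ', ?_⟩
      rw [hn]
      intro f hf
      simp only [Finset.mem_filter]
      exact ⟨fun h => ⟨hf, h⟩, fun h => h.2⟩
    refine ⟨n + 1, ?_⟩
    intro f hf
    have h1 : R n = h.choose := dif_pos h
    show f ∈ R n ↔ f ∈ Q'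
    rw [h1, h.choose_spec.2 f (by rw [hn]; exact hf), hn]
    simp only [Finset.mem_filter]
    exact ⟨fun h => h.2, fun h => ⟨hf, h⟩⟩

end Univ

open Univ in
/-- A universal action. -/
theorem universal_action (G : Type) [Group G] [Countable G] (P₀ : Set G) (hP₀ : IsCone P₀) :
    ∃ ρ : G →* AutQ, (∀ g, Per (ρ g)) ∧
      (∃ u v : ℚ, u < v ∧ ∀ f ∈ P₀, v ≤ ρ f u) ∧
      (∀ Q : Set G, IsCone Q → ∀ F : Finset G, ∃ u v : ℚ, u < v ∧
        ∀ f ∈ F, (f ∈ Q → v ≤ ρ f u) ∧ (f ∉ Q → f ≠ 1 → v ≤ ρ f⁻¹ u)) := by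
  obtain ⟨Q, hQ, hQ0, hQa⟩ := exists_seq G P₀ hP₀
  have : Nonempty (Set.Ioo (0 : ℚ) 1) := ⟨⟨1 / 2, by norm_num, by norm_num⟩⟩
  obtain ⟨e⟩ := Order.iso_of_countable_dense (Om G Q hQ) (Set.Ioo (0 : ℚ) 1)
  let ρ : G →* AutQ :=
    { toFun := fun f => extIso ((e.symm.trans (act f)).trans e)
      map_one' := by
        ext x
        rw [extIso_apply]
        have h1 : ((e.symm.trans (act (1 : G))).trans e) = 1 := by
          ext y
          show ((e (act 1 (e.symm y)) : Set.Ioo (0 : ℚ) 1) : ℚ) = y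
          have h2 : act (1 : G) (e.symm y) = e.symm y := by
            rw [act_apply, one_mul]
          rw [h2, OrderIso.apply_symm_apply]
        rw [h1, ext_one]
        rfl
      map_mul' := by
        intro f g
        ext x
        rw [mul_apply', extIso_apply, extIso_apply, extIso_apply, ext_ext]
        congr 1
        ext y
        show ((e (act (f * g) (e.symm y)) : Set.Ioo (0 : ℚ) 1) : ℚ) =
          e (act f (e.symm (e (act g (e.symm y)))))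
        rw [OrderIso.symm_apply_apply, act_apply, act_apply, act_apply, mul_assoc] }
  have hρ : ∀ f (a : Om G Q hQ), ρ f (e a : ℚ) = e (act f a) := by
    intro f a
    show ext ((e.symm.trans (act f)).trans e) (e a : ℚ) = e (act f a)
    rw [ext_unit]
    show ((e (act f (e.symm (e a))) : Set.Ioo (0 : ℚ) 1) : ℚ) = e (act f a)
    rw [OrderIso.symm_apply_apply]
  have huv : ∀ k, ((e ⟨k, 1, 0⟩ : Set.Ioo (0 : ℚ) 1) : ℚ) < e ⟨k, 1, 1⟩ := by
    intro k
    have h : (⟨k, 1, 0⟩ : Om G Q hQ) < ⟨k, 1, 1⟩ := Or.inr ⟨rfl, Or.inr ⟨rfl, zero_lt_one⟩⟩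
    exact e.strictMono h
  have key : ∀ k, ∀ f ∈ Q k, ((e ⟨k, 1, 1⟩ : Set.Ioo (0 : ℚ) 1) : ℚ) ≤
      ρ f ((e ⟨k, 1, 0⟩ : Set.Ioo (0 : ℚ) 1) : ℚ) := by
    intro k f hf
    rw [hρ, act_apply]
    have h : (⟨k, 1, 1⟩ : Om G Q hQ) < ⟨k, f * 1, 0⟩ :=
      Or.inr ⟨rfl, Or.inl (by simpa using hf)⟩
    exact (e.strictMono h).le
  refine ⟨ρ, fun g => extIso_per _, ⟨_, _, huv 0, fun f hf => key 0 f (by rwa [hQ0])⟩, ?_⟩
  intro Q' hQ' F
  obtain ⟨k, hk⟩ := hQa Q' hQ' F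
  refine ⟨_, _, huv k, fun f hf => ⟨fun h => key k f ((hk f hf).mpr h), fun h h1 => ?_⟩⟩
  apply key k
  rcases (hQ k).2.2.1 f h1 with h2 | h2
  · exact absurd ((hk f hf).mp h2) h
  · exact h2

end PoolLOMin
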